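import Pool.Agent.Helper74.FP.Goals

set_option autoImplicit false

namespace Pool.Agent.Helper62.FP

open Pool.Agent.Helper52.Wq2 Pool.Agent.Helper61.NW Pool.Agent.Helper74.FP

universe u

lemma cayL_adj_mul {B : Type u} [Group B] (T : Set B) (x y b : B) :
    (cayL T).Adj (x * b) (y * b) ↔ (cayL T).Adj x y := by
  unfold cayL
  rw [SimpleGraph.fromRel_adj, SimpleGraph.fromRel_adj]
  have h1 : ∀ x y : B, y * b * (x * b)⁻¹ = y * x⁻¹ := fun x y => by group
  rw [h1, h1, ne_eq, ne_eq, mul_left_inj]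

/-- **F3.** -/
theorem f3 : F3Stmt.{u} := by
  intro A B _ _ S T hM
  obtain ⟨φ, h1, h2, h3⟩ := hM
  obtain ⟨b, hb⟩ := (h1 1).1
  refine ⟨fun a => {x | x * b ∈ φ a}, ⟨?_, ?_, ?_⟩, by simpa using hb⟩
  · intro a
    obtain ⟨w, hw⟩ := (h1 a).1
    refine ⟨⟨w * b⁻¹, by simpa using hw⟩, fun C hC hne hcl => ?_⟩
    have h := (h1 a).2 {y | y * b⁻¹ ∈ C} (fun y hy => by
        have := hC hy
        simpa using this) (by
        obtain ⟨c, hc⟩ := hne
        exact ⟨c * b, by simpa using hc⟩) (by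
        intro x hx y hy hxy
        refine hcl _ hx _ (by simpa using hy) ?_
        exact (cayL_adj_mul T x y b⁻¹).2 hxy)
    intro x hx
    have := h hx
    simpa using this
  · intro v w x hx hy
    exact h2 v w _ hx hy
  · intro v w hvw
    obtain ⟨x, hx, y, hy, hxy⟩ := h3 v w hvw
    refine ⟨x * b⁻¹, by simpa using hx, y * b⁻¹, by simpa using hy, ?_⟩
    exact (cayL_adj_mul T x y b⁻¹).2 hxy

end Pool.Agent.Helper62.FP
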